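import Pool.Agent.P.MP_97ea17_al.F.Main

/-! For every irreducible quaternionic reflection group the zero-fiber ring has dimension at least
`(g + 1) ^ n`. -/

namespace Pool.Agent.Results.MP_97ea17_al.Full

open Pool.Agent.P.MP_97ea17_al
open scoped Quaternion

theorem result : ∀ (n : ℕ) (W : Subgroup (GL (Fin n) ℍ[ℝ])), IsIrredReflGroup W → Bound W :=
  fun _ _ h => Geo.bound_all h

end Pool.Agent.Results.MP_97ea17_al.Full
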